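import Pool.Agent.Lib.MP_abd978_an.H86.Intg

/-!
# Project ABD, module CACP
-/

set_option autoImplicit false

open MeasureTheory Metric Set Filter Topology ContDiff
open scoped Gradient RealInnerProductSpace

namespace Pool.Agent.Lib.MP_abd978_an.H86

/-- the sign of a continuous function without zeros -/
theorem exists_sign {f : ℝ → ℝ} {c d : ℝ} (hf : ContinuousOn f (Icc c d))
    (h0 : ∀ t ∈ Icc c d, f t ≠ 0) :
    ∃ σ : ℝ, σ * σ = 1 ∧ ∀ t ∈ Icc c d, 0 < σ * f t := by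
  by_cases h : ∀ t ∈ Icc c d, 0 < f t
  · exact ⟨1, by norm_num, fun t ht => by rw [one_mul]; exact h t ht⟩
  · push Not at h
    obtain ⟨t₁, ht₁, h₁⟩ := h
    refine ⟨-1, by norm_num, fun t ht => ?_⟩
    by_contra hcon
    have h2 : 0 ≤ f t := by linarith
    obtain ⟨z, hz, hz'⟩ := isPreconnected_Icc.intermediate_value ht₁ ht hf ⟨h₁, h2⟩
    exact h0 z hz hz'

theorem exp_id {A w s p q : ℝ} (hA : 0 < A) (hw : 0 < w) (hs : s = q - p + 1) :
    (A ^ s * w ^ (p - 1)) ^ p * (A ^ (s - 1) * w ^ p) ^ (1 - p) = A ^ q := by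
  rw [Real.mul_rpow (Real.rpow_nonneg hA.le _) (Real.rpow_nonneg hw.le _),
    Real.mul_rpow (Real.rpow_nonneg hA.le _) (Real.rpow_nonneg hw.le _),
    ← Real.rpow_mul hA.le, ← Real.rpow_mul hA.le, ← Real.rpow_mul hw.le, ← Real.rpow_mul hw.le]
  have e1 : w ^ ((p - 1) * p) * w ^ (p * (1 - p)) = 1 := by
    rw [← Real.rpow_add hw, show (p - 1) * p + p * (1 - p) = 0 by ring, Real.rpow_zero]
  have e2 : A ^ (s * p) * A ^ ((s - 1) * (1 - p)) = A ^ q := by
    rw [← Real.rpow_add hA]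
    congr 1
    rw [hs]
    ring
  calc A ^ (s * p) * w ^ ((p - 1) * p) * (A ^ ((s - 1) * (1 - p)) * w ^ (p * (1 - p)))
      = (A ^ (s * p) * A ^ ((s - 1) * (1 - p))) * (w ^ ((p - 1) * p) * w ^ (p * (1 - p))) := by
        ring
    _ = A ^ q := by rw [e1, e2, mul_one]

/-- the auxiliary function -/
noncomputable def th (Φ : ℝ → ℝ) (σ s p : ℝ) (t : ℝ) : ℝ :=
  σ * (Φ t ^ s * (σ * deriv Φ t) ^ (p - 1)) / s

theorem cacp (hC : CaccStatement) : CacpStatement := by
  intro n p μ a α β hop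
  obtain ⟨C, hC0, hC⟩ := hC n p μ a α β hop
  refine ⟨C, hC0, ?_⟩
  intro D u v c d Φ η q hs hΦ hη hη1 hq
  have hp := hop.hp
  have := hop.lf
  have hDm := hs.isOpen.measurableSet
  have hum : AEMeasurable u (μ.restrict D) := hs.sob.1.1.aemeasurable
  obtain ⟨O, hO, hcO, hΦO⟩ := hΦ.smooth
  have hdO : ContDiffOn ℝ ∞ (deriv Φ) O := hΦO.deriv_of_isOpen hO (by simp)
  obtain ⟨σ, hσ, hσd⟩ := exists_sign (hdO.continuousOn.mono hcO) hΦ.der
  obtain ⟨s, hsd⟩ : ∃ s, s = q - p + 1 := ⟨_, rfl⟩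
  have hs1 : 1 ≤ s := by linarith
  have hs0 : 0 < s := by linarith
  -- smoothness
  set O' : Set ℝ := (O ∩ Φ ⁻¹' Ioi 0) ∩ (fun t => σ * deriv Φ t) ⁻¹' Ioi 0 with hO'
  have hO1 : IsOpen (O ∩ Φ ⁻¹' Ioi 0) := hΦO.continuousOn.isOpen_inter_preimage hO isOpen_Ioi
  have hc2 : ContinuousOn (fun t => σ * deriv Φ t) (O ∩ Φ ⁻¹' Ioi 0) :=
    continuousOn_const.mul (hdO.continuousOn.mono inter_subset_left)
  have hO2 : IsOpen O' := hc2.isOpen_inter_preimage hO1 isOpen_Ioi
  have hcO' : Icc c d ⊆ O' := fun t ht => ⟨⟨hcO ht, hΦ.pos t ht⟩, hσd t ht⟩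
  have hO'O : O' ⊆ O := fun t ht => ht.1.1
  have hθs : ContDiffOn ℝ ∞ (th Φ σ s p) O' := by
    have h1 : ContDiffOn ℝ ∞ (fun t => Φ t ^ s) O' :=
      (hΦO.mono hO'O).rpow_const_of_ne fun t ht => (show 0 < Φ t from ht.1.2).ne'
    have h2 : ContDiffOn ℝ ∞ (fun t => (σ * deriv Φ t) ^ (p - 1)) O' :=
      (contDiffOn_const.mul (hdO.mono hO'O)).rpow_const_of_ne
        fun t ht => (show 0 < σ * deriv Φ t from ht.2).ne'
    exact (contDiffOn_const.mul (h1.mul h2)).div_const s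
  have hsm : SmoothNear (th Φ σ s p) c d := ⟨O', hO2, hcO', hθs⟩
  -- the derivative
  have hder : ∀ t ∈ Icc c d, deriv (th Φ σ s p) t = Φ t ^ (s - 1) * |deriv Φ t| ^ p +
      (p - 1) / s * (Φ t ^ s * (σ * deriv Φ t) ^ (p - 2) * deriv (deriv Φ) t) := by
    intro t ht
    have hA : 0 < Φ t := hΦ.pos t ht
    have hw : 0 < σ * deriv Φ t := hσd t ht
    have hd1 : HasDerivAt Φ (deriv Φ t) t :=
      ((hΦO.differentiableOn (by simp)).differentiableAt (hO.mem_nhds (hcO ht))).hasDerivAt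
    have hd2 : HasDerivAt (deriv Φ) (deriv (deriv Φ) t) t :=
      ((hdO.differentiableOn (by simp)).differentiableAt (hO.mem_nhds (hcO ht))).hasDerivAt
    have h1 := hd1.rpow_const (p := s) (Or.inl hA.ne')
    have h2 := (hd2.const_mul σ).rpow_const (p := p - 1) (Or.inl hw.ne')
    have h3 := ((h1.mul h2).const_mul σ).div_const s
    have h4 : deriv (th Φ σ s p) t = _ := h3.deriv
    rw [h4]
    have e0 : |deriv Φ t| = σ * deriv Φ t := by
      have h5 : |σ| = 1 := by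
        have h6 : |σ| * |σ| = 1 := by rw [abs_mul_abs_self, hσ]
        have h7 : 0 ≤ |σ| := abs_nonneg _
        nlinarith
      rw [← abs_of_pos hw, abs_mul, h5, one_mul]
    have e1 : (σ * deriv Φ t) ^ p = (σ * deriv Φ t) ^ (p - 1) * (σ * deriv Φ t) := by
      rw [← Real.rpow_add_one hw.ne']
      congr 1
      ring
    have e2 : p - 1 - 1 = p - 2 := by ring
    rw [e0, e1, e2]
    field_simp
    linear_combination ((p - 1) * Φ t ^ s * deriv (deriv Φ) t * (σ * deriv Φ t) ^ (p - 2)) * hσ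
  have hge : ∀ t ∈ Icc c d, Φ t ^ (s - 1) * |deriv Φ t| ^ p ≤ deriv (th Φ σ s p) t := by
    intro t ht
    rw [hder t ht]
    have hA : 0 < Φ t := hΦ.pos t ht
    have hw : 0 < σ * deriv Φ t := hσd t ht
    have h1 := hΦ.cvx t ht
    have h2 : 0 ≤ (p - 1) / s := div_nonneg (by linarith) hs0.le
    have h3 : 0 ≤ (p - 1) / s * (Φ t ^ s * (σ * deriv Φ t) ^ (p - 2) * deriv (deriv Φ) t) := by
      positivity
    linarith
  have hpos : ∀ t ∈ Icc c d, 0 < Φ t ^ (s - 1) * |deriv Φ t| ^ p := by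
    intro t ht
    have hA : 0 < Φ t := hΦ.pos t ht
    have hw : 0 < |deriv Φ t| := abs_pos.2 (hΦ.der t ht)
    positivity
  have hdp : ∀ t ∈ Icc c d, 0 < deriv (th Φ σ s p) t := fun t ht =>
    (hpos t ht).trans_le (hge t ht)
  -- the right hand side
  have hrhs : ∀ t ∈ Icc c d,
      |th Φ σ s p t| ^ p * deriv (th Φ σ s p) t ^ (1 - p) ≤ Φ t ^ q := by
    intro t ht
    have hA : 0 < Φ t := hΦ.pos t ht
    have hw : 0 < |deriv Φ t| := abs_pos.2 (hΦ.der t ht)
    have h5 : |σ| = 1 := by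
      have h6 : |σ| * |σ| = 1 := by rw [abs_mul_abs_self, hσ]
      have h7 : 0 ≤ |σ| := abs_nonneg _
      nlinarith
    have e0 : σ * deriv Φ t = |deriv Φ t| := by
      rw [← abs_of_pos (hσd t ht), abs_mul, h5, one_mul]
    have h1 : |th Φ σ s p t| ≤ Φ t ^ s * |deriv Φ t| ^ (p - 1) := by
      unfold th
      rw [e0, abs_div, abs_mul, h5, one_mul, abs_of_pos hs0, abs_of_pos (by positivity)]
      exact div_le_self (by positivity) hs1
    calc |th Φ σ s p t| ^ p * deriv (th Φ σ s p) t ^ (1 - p)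
        ≤ (Φ t ^ s * |deriv Φ t| ^ (p - 1)) ^ p * (Φ t ^ (s - 1) * |deriv Φ t| ^ p) ^ (1 - p) := by
          refine mul_le_mul (Real.rpow_le_rpow (abs_nonneg _) h1 (by linarith))
            (Real.rpow_le_rpow_of_nonpos (hpos t ht) (hge t ht) (by linarith))
            (Real.rpow_nonneg (hdp t ht).le _) (by positivity)
      _ = Φ t ^ q := exp_id hA hw hsd
  -- integrability
  have hdc : ContinuousOn (deriv (th Φ σ s p)) (Icc c d) :=
    ((hθs.deriv_of_isOpen (m := ∞) hO2 (by simp)).continuousOn).mono hcO'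
  obtain ⟨K, hK⟩ := isCompact_Icc.exists_bound_of_continuousOn hdc
  obtain ⟨K', hK'⟩ := isCompact_Icc.exists_bound_of_continuousOn
    (((hΦO.continuousOn.mono hcO).rpow_const (p := q) fun t ht => Or.inl (hΦ.pos t ht).ne'))
  have hm0 : ⌈p⌉₊ ≠ 0 := by
    have : 0 < ⌈p⌉₊ := Nat.ceil_pos.2 (by linarith)
    omega
  have hI1 : Integrable (fun x => η x ^ ⌈p⌉₊ * (deriv (th Φ σ s p) (u x) * ‖v x‖ ^ p)) μ := by
    have hsupp : Function.support
        (fun x => η x ^ ⌈p⌉₊ * (deriv (th Φ σ s p) (u x) * ‖v x‖ ^ p)) ⊆ D := by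
      intro x hx
      by_contra hxD
      apply hx
      have : η x = 0 := image_eq_zero_of_notMem_tsupport fun h => hxD (hη.2.2 h)
      simp [this, hm0]
    rw [← integrableOn_iff_integrable_of_support_subset hsupp]
    have h1 : Integrable (fun x => ‖v x‖ ^ p) (μ.restrict D) := integrable_rpow hp hs.sob.2.1
    have h2 : AEStronglyMeasurable (fun x => η x ^ ⌈p⌉₊ * deriv (th Φ σ s p) (u x))
        (μ.restrict D) := by
      refine AEMeasurable.aestronglyMeasurable ?_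
      exact ((hη.1.continuous.measurable.pow_const _).aemeasurable).mul
        ((measurable_deriv _).comp_aemeasurable hum)
    have h3 := h1.bdd_mul h2 (c := K) (Eventually.of_forall fun x => by
      rw [norm_mul, norm_pow]
      have h4 : ‖η x‖ ^ ⌈p⌉₊ ≤ 1 := by
        refine pow_le_one₀ (norm_nonneg _) ?_
        rw [Real.norm_of_nonneg (hη1 x).1]
        exact (hη1 x).2
      calc ‖η x‖ ^ ⌈p⌉₊ * ‖deriv (th Φ σ s p) (u x)‖ ≤ 1 * ‖deriv (th Φ σ s p) (u x)‖ :=
            mul_le_mul_of_nonneg_right h4 (norm_nonneg _)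
        _ ≤ K := by rw [one_mul]; exact hK _ (hs.mem x))
    refine h3.congr (Eventually.of_forall fun x => ?_)
    show η x ^ ⌈p⌉₊ * deriv (th Φ σ s p) (u x) * ‖v x‖ ^ p = _
    ring
  have hI2 : Integrable (fun x => Φ (u x) ^ q * ‖∇ η x‖ ^ p) μ := by
    have hsupp : Function.support (fun x => Φ (u x) ^ q * ‖∇ η x‖ ^ p) ⊆ D := by
      intro x hx
      by_contra hxD
      apply hx
      have : ∇ η x = 0 := grad_eq_zero_of_notMem fun h => hxD (hη.2.2 h)
      simp [this, Real.zero_rpow (show p ≠ 0 by linarith)]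
    rw [← integrableOn_iff_integrable_of_support_subset hsupp]
    have h1 : Integrable (fun x => ‖∇ η x‖ ^ p) (μ.restrict D) :=
      integrable_rpow hp (hη.memLp_grad _)
    have hms : Measurable ((Icc c d).piecewise Φ fun _ => (0 : ℝ)) := by
      classical
      exact (hΦO.continuousOn.mono hcO).measurable_piecewise continuousOn_const
        measurableSet_Icc
    have h2 : AEStronglyMeasurable (fun x => Φ (u x) ^ q) (μ.restrict D) := by
      refine AEMeasurable.aestronglyMeasurable ?_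
      have h3 := (hms.comp_aemeasurable hum).pow_const q
      refine h3.congr (Eventually.of_forall fun x => ?_)
      show ((Icc c d).piecewise Φ (fun _ => (0 : ℝ)) (u x)) ^ q = Φ (u x) ^ q
      rw [Set.piecewise_eq_of_mem _ _ _ (hs.mem x)]
    exact h1.bdd_mul h2 (c := K') (Eventually.of_forall fun x => hK' _ (hs.mem x))
  -- conclusion
  have hmain := hC D u v c d (th Φ σ s p) η hs hsm hdp hη hη1
  calc ∫ x, η x ^ ⌈p⌉₊ * (Φ (u x) ^ (q - p) * |deriv Φ (u x)| ^ p * ‖v x‖ ^ p) ∂μ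
      ≤ ∫ x, η x ^ ⌈p⌉₊ * (deriv (th Φ σ s p) (u x) * ‖v x‖ ^ p) ∂μ := by
        refine integral_mono_of_nonneg (Eventually.of_forall fun x => ?_) hI1
          (Eventually.of_forall fun x => ?_)
        · have h1 := (hη1 x).1
          have h2 := (hΦ.pos _ (hs.mem x)).le
          show 0 ≤ η x ^ ⌈p⌉₊ * (Φ (u x) ^ (q - p) * |deriv Φ (u x)| ^ p * ‖v x‖ ^ p)
          positivity
        · have h1 := (hη1 x).1
          have h2 := hge _ (hs.mem x)
          have h3 : s - 1 = q - p := by linarith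
          rw [h3] at h2
          exact mul_le_mul_of_nonneg_left (mul_le_mul_of_nonneg_right h2
            (Real.rpow_nonneg (norm_nonneg _) _)) (pow_nonneg h1 _)
    _ ≤ C * ∫ x, |th Φ σ s p (u x)| ^ p * deriv (th Φ σ s p) (u x) ^ (1 - p) * ‖∇ η x‖ ^ p ∂μ :=
        hmain
    _ ≤ C * ∫ x, Φ (u x) ^ q * ‖∇ η x‖ ^ p ∂μ := by
        refine mul_le_mul_of_nonneg_left ?_ hC0.le
        refine integral_mono_of_nonneg (Eventually.of_forall fun x => ?_) hI2
          (Eventually.of_forall fun x => ?_)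
        · have h1 := (hdp _ (hs.mem x)).le
          show 0 ≤ |th Φ σ s p (u x)| ^ p * deriv (th Φ σ s p) (u x) ^ (1 - p) * ‖∇ η x‖ ^ p
          positivity
        · exact mul_le_mul_of_nonneg_right (hrhs _ (hs.mem x))
            (Real.rpow_nonneg (norm_nonneg _) _)

end Pool.Agent.Lib.MP_abd978_an.H86
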