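import Pool.Agent.Lib.MP_abd978_an.Interfaces

/-!
# Project ABD, modules INTG and PAIR
-/

set_option autoImplicit false

open MeasureTheory Metric Set Filter Topology ContDiff
open scoped Gradient RealInnerProductSpace

namespace Pool.Agent.Lib.MP_abd978_an.H86

theorem ofReal_ne_zero' {p : ℝ} (hp : 1 < p) : ENNReal.ofReal p ≠ 0 := by
  have := one_le_ofReal hp
  intro h0
  rw [h0] at this
  simp at this

theorem integrable_rpow {n : ℕ} {p : ℝ} (hp : 1 < p) {ν : Measure (E n)} {F : Type*}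
    [NormedAddCommGroup F] {v : E n → F}
    (hv : MemLp v (ENNReal.ofReal p) ν) : Integrable (fun x => ‖v x‖ ^ p) ν := by
  have h := hv.integrable_norm_rpow (ofReal_ne_zero' hp) ENNReal.ofReal_ne_top
  rwa [ENNReal.toReal_ofReal (by linarith)] at h

theorem toReal_eLpNorm' {n : ℕ} {p : ℝ} (hp : 1 < p) {ν : Measure (E n)} {F : Type*}
    [NormedAddCommGroup F] {v : E n → F}
    (hv : MemLp v (ENNReal.ofReal p) ν) :
    (∫ x, ‖v x‖ ^ p ∂ν) ^ (1 / p) = (eLpNorm v (ENNReal.ofReal p) ν).toReal := by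
  have h0 : 0 ≤ (∫ x, ‖v x‖ ^ p ∂ν) ^ p⁻¹ :=
    Real.rpow_nonneg (integral_nonneg fun x => by positivity) _
  rw [hv.eLpNorm_eq_integral_rpow_norm (ofReal_ne_zero' hp) ENNReal.ofReal_ne_top,
    ENNReal.toReal_ofReal (show (0 : ℝ) ≤ p by linarith), ENNReal.toReal_ofReal h0, one_div]

theorem mul_le_add_rpow {p x y : ℝ} (hp : 1 < p) (hx : 0 ≤ x) (hy : 0 ≤ y) :
    x ^ (p - 1) * y ≤ x ^ p + y ^ p := by
  have key : ∀ z : ℝ, 0 ≤ z → z ^ (p - 1) * z = z ^ p := by
    intro z hz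
    rcases hz.eq_or_lt with h | h
    · rw [← h, Real.zero_rpow (by linarith), Real.zero_rpow (by linarith), zero_mul]
    · rw [← Real.rpow_add_one h.ne']
      congr 1
      ring
  rcases le_total x y with h | h
  · have h1 : x ^ (p - 1) * y ≤ y ^ (p - 1) * y :=
      mul_le_mul_of_nonneg_right (Real.rpow_le_rpow hx h (by linarith)) hy
    rw [key y hy] at h1
    have h2 : 0 ≤ x ^ p := Real.rpow_nonneg hx _
    linarith
  · have h1 : x ^ (p - 1) * y ≤ x ^ (p - 1) * x :=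
      mul_le_mul_of_nonneg_left h (Real.rpow_nonneg hx _)
    rw [key x hx] at h1
    have h2 : 0 ≤ y ^ p := Real.rpow_nonneg hy _
    linarith

theorem intg : IntgStatement := by
  intro n p μ ν a α β v V hop hv hV
  have hp := hop.hp
  have hvm : AEMeasurable v ν := hv.1.aemeasurable
  have hVm : AEMeasurable V ν := hV.1.aemeasurable
  have ham : AEMeasurable (fun x => a x (v x)) ν :=
    hop.meas.comp_aemeasurable (aemeasurable_id.prodMk hvm)
  have hβ : 0 ≤ β := hop.hα.le.trans hop.hαβ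
  have hi1 : Integrable (fun x => ‖v x‖ ^ p) ν := integrable_rpow hp hv
  have hi2 : Integrable (fun x => ‖V x‖ ^ p) ν := integrable_rpow hp hV
  have hm : AEStronglyMeasurable (fun x => ‖v x‖ ^ (p - 1) * ‖V x‖) ν :=
    ((hvm.norm.pow_const _).mul hVm.norm).aestronglyMeasurable
  have hi3 : Integrable (fun x => ‖v x‖ ^ (p - 1) * ‖V x‖) ν := by
    refine (hi1.add hi2).mono' hm (Eventually.of_forall fun x => ?_)
    have h0 : 0 ≤ ‖v x‖ ^ (p - 1) * ‖V x‖ := by positivity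
    rw [Real.norm_of_nonneg h0]
    exact mul_le_add_rpow hp (norm_nonneg _) (norm_nonneg _)
  have hb : ∀ x, ‖⟪a x (v x), V x⟫‖ ≤ β * (‖v x‖ ^ (p - 1) * ‖V x‖) := by
    intro x
    have h1 := norm_inner_le_norm (𝕜 := ℝ) (a x (v x)) (V x)
    have h2 := mul_le_mul_of_nonneg_right (hop.bdd x (v x)) (norm_nonneg (V x))
    calc ‖⟪a x (v x), V x⟫‖ ≤ ‖a x (v x)‖ * ‖V x‖ := h1
      _ ≤ β * ‖v x‖ ^ (p - 1) * ‖V x‖ := h2
      _ = β * (‖v x‖ ^ (p - 1) * ‖V x‖) := by ring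
  have hi4 : Integrable (fun x => ⟪a x (v x), V x⟫) ν := by
    refine (hi3.const_mul β).mono' ?_ (Eventually.of_forall hb)
    exact (ham.inner hVm).aestronglyMeasurable
  have hH : ∫ x, ‖v x‖ ^ (p - 1) * ‖V x‖ ∂ν ≤
      (∫ x, ‖v x‖ ^ p ∂ν) ^ ((p - 1) / p) * (∫ x, ‖V x‖ ^ p ∂ν) ^ (1 / p) := by
    have hconj : (p / (p - 1)).HolderConjugate p := (Real.HolderConjugate.conjExponent hp).symm
    have hf : MemLp (fun x => ‖v x‖ ^ (p - 1)) (ENNReal.ofReal (p / (p - 1))) ν := by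
      have h := hv.norm_rpow_div (ENNReal.ofReal (p - 1))
      rw [ENNReal.toReal_ofReal (by linarith), ← ENNReal.ofReal_div_of_pos (by linarith)] at h
      exact h
    have h := integral_mul_le_Lp_mul_Lq_of_nonneg hconj (μ := ν)
      (f := fun x => ‖v x‖ ^ (p - 1)) (g := fun x => ‖V x‖)
      (Eventually.of_forall fun x => by positivity) (Eventually.of_forall fun x => norm_nonneg _)
      hf hV.norm
    have e1 : ∀ x, (‖v x‖ ^ (p - 1)) ^ (p / (p - 1)) = ‖v x‖ ^ p := by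
      intro x
      rw [← Real.rpow_mul (norm_nonneg _)]
      congr 1
      have : p - 1 ≠ 0 := by linarith
      field_simp
    have e2 : 1 / (p / (p - 1)) = (p - 1) / p := by
      rw [one_div_div]
    simp only [e1, e2] at h
    exact h
  refine ⟨hi4, hi3, hH, ?_⟩
  calc |∫ x, ⟪a x (v x), V x⟫ ∂ν| ≤ ∫ x, β * (‖v x‖ ^ (p - 1) * ‖V x‖) ∂ν :=
        norm_integral_le_of_norm_le (hi3.const_mul β) (Eventually.of_forall hb)
    _ = β * ∫ x, ‖v x‖ ^ (p - 1) * ‖V x‖ ∂ν := integral_const_mul _ _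
    _ ≤ _ := mul_le_mul_of_nonneg_left hH hβ

theorem pair : PairStatement := by
  intro n p μ a α β D v Ψ V hop hD hv hE h0
  have hp := hop.hp
  have := hop.lf
  have hDm := hD.measurableSet
  obtain ⟨-, hz⟩ := h0.ae_eq_zero hp hDm
  obtain ⟨-, hV, ψ, hψ, -, hlim⟩ := h0
  have hβ : 0 ≤ β := hop.hα.le.trans hop.hαβ
  have e1 : ∫ x in D, ⟪a x (v x), V x⟫ ∂μ = ∫ x, ⟪a x (v x), V x⟫ ∂μ := by
    refine setIntegral_eq_integral_of_ae_compl_eq_zero ?_
    rw [ae_restrict_iff' hDm.compl] at hz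
    filter_upwards [hz] with x hx hxD
    rw [hx hxD, inner_zero_right]
  have hVD : MemLp V (ENNReal.ofReal p) (μ.restrict D) := hV.restrict _
  have e2 : ∀ i, ∫ x in D, ⟪a x (v x), ∇ (ψ i) x⟫ ∂μ = 0 := by
    intro i
    rw [← hE (ψ i) (hψ i)]
    refine setIntegral_eq_integral_of_ae_compl_eq_zero (Eventually.of_forall fun x hx => ?_)
    rw [grad_eq_zero_of_notMem (fun h => hx ((hψ i).2.2 h)), inner_zero_right]
  have hψL : ∀ i, MemLp (fun x => ∇ (ψ i) x) (ENNReal.ofReal p) (μ.restrict D) :=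
    fun i => (hψ i).memLp_grad _
  have hbound : ∀ i, |∫ x in D, ⟪a x (v x), V x⟫ ∂μ| ≤
      β * ((∫ x in D, ‖v x‖ ^ p ∂μ) ^ ((p - 1) / p) *
        (eLpNorm (fun x => ∇ (ψ i) x - V x) (ENNReal.ofReal p) μ).toReal) := by
    intro i
    have hd : MemLp (fun x => ∇ (ψ i) x - V x) (ENNReal.ofReal p) (μ.restrict D) :=
      (hψL i).sub hVD
    have hdμ : MemLp (fun x => ∇ (ψ i) x - V x) (ENNReal.ofReal p) μ :=
      ((hψ i).memLp_grad _).sub hV
    have h1 := (intg n p μ (μ.restrict D) a α β v _ hop hv hd).2.2.2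
    have h2 : ∫ x in D, ⟪a x (v x), ∇ (ψ i) x - V x⟫ ∂μ = - ∫ x in D, ⟪a x (v x), V x⟫ ∂μ := by
      have h3 : ∀ x, ⟪a x (v x), ∇ (ψ i) x - V x⟫ =
          ⟪a x (v x), ∇ (ψ i) x⟫ - ⟪a x (v x), V x⟫ := fun x => inner_sub_right _ _ _
      simp only [h3]
      rw [integral_sub (intg n p μ (μ.restrict D) a α β v _ hop hv (hψL i)).1
        (intg n p μ (μ.restrict D) a α β v _ hop hv hVD).1, e2 i, zero_sub]
    rw [h2, abs_neg] at h1
    refine h1.trans ?_
    refine mul_le_mul_of_nonneg_left ?_ hβ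
    refine mul_le_mul_of_nonneg_left ?_ (Real.rpow_nonneg (integral_nonneg fun x => by positivity) _)
    rw [toReal_eLpNorm' hp hd]
    exact ENNReal.toReal_mono hdμ.2.ne (eLpNorm_mono_measure _ Measure.restrict_le_self)
  have hlim' : Tendsto (fun i => β * ((∫ x in D, ‖v x‖ ^ p ∂μ) ^ ((p - 1) / p) *
        (eLpNorm (fun x => ∇ (ψ i) x - V x) (ENNReal.ofReal p) μ).toReal)) atTop
      (𝓝 (β * ((∫ x in D, ‖v x‖ ^ p ∂μ) ^ ((p - 1) / p) * 0))) := by
    have h1 : Tendsto (fun i => (eLpNorm (fun x => ∇ (ψ i) x - V x) (ENNReal.ofReal p) μ).toReal)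
        atTop (𝓝 0) := by
      have h := (ENNReal.tendsto_toReal ENNReal.zero_ne_top).comp hlim
      rw [ENNReal.toReal_zero] at h
      exact h
    exact (h1.const_mul _).const_mul _
  have h3 : |∫ x in D, ⟪a x (v x), V x⟫ ∂μ| ≤ 0 := by
    have := ge_of_tendsto' hlim' hbound
    simpa using this
  rw [← e1]
  exact abs_nonpos_iff.1 h3

end Pool.Agent.Lib.MP_abd978_an.H86
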